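import Pool.Agent.V7H2.FT.Family

/-!
# The Mumford-Tate conjecture for second cohomology is decided by the classes in its fourth power

`F.V i = H²(X_i, ℚ_ℓ(1))` for finitely many smooth projective varieties `X_i`, with polarization forms
`φ i`; `g` is the Lie algebra of the Mumford-Tate group of the sum of the `H²(X_i, ℚ(1))`, with scalars
extended to `K = ℚ_ℓ`, and `h` is the Lie algebra of the `ℓ`-adic monodromy group of the sum of the
`F.V i` (`SkewPair`). It is **not** assumed that one of them is contained in the other one, nor that the
Galois representation is semisimple.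

Elements of `End (V i) ⊗ End (V j)`, written as linear maps from `End (V i)` to `End (V j)`, are by means
of the `φ i` the classes in `H²(X_i)^{⊗2} ⊗ H²(X_j)^{⊗2}(4)`, so classes of codimension 4 on
`X_i × X_i × X_j × X_j`; they are `ℚ_ℓ`-combinations of Hodge classes iff they are killed by `g`, and Tate
classes (over the field `k^conn`) iff they are killed by `h`.
-/

set_option autoImplicit false

namespace Pool.Agent.Results.MP_6369ef_ag.FourthPowerH2

open Pool.Agent.V7H2.FT.Fam

theorem result {K : Type} [Field K] [CharZero K] {F : Family K} {φ : Forms F}
    {g h : Submodule K (Ops F)} (S : SkewPair φ g h) :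
    -- totally real centres
    (RealCentre φ g → List.TFAE [h = g,
      (EndsAgree g h ∧ EndsAgree h g) ∧ CasimirAgree g h ∧ CasimirAgree h g,
      Nondeg h ∧ PairsAgree g h ∧ PairsAgree h g]) ∧
    -- arbitrary centres
    (Nondeg h ∧ PairsAgree g h ∧ PairsAgree h g → derived g = derived h) :=
  pair S

end Pool.Agent.Results.MP_6369ef_ag.FourthPowerH2
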