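import Mathlib
import Pool.Agent.V7H82.PR.Expl

/-!
# The Mumford-Tate conjecture for `H²` at a single prime `ℓ`, from one Frobenius polynomial

Let `X` be a smooth projective variety over a field `k` which is finitely generated over `ℚ`, with
`H²(X, ℚ)(1) = N ⊕ T`, `N` the algebraic classes (`k^κ`) and `T` the transcendental part, a
polarised rational Hodge structure with the Hodge numbers `(p, q, p)` and without endomorphisms
besides the rational scalars, with `p = 1` or `2 p² (p² + 1) < (q - 2 p) (q + p)` (for example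
`p = 2`, `q ≥ 9`). `Γ` is the Galois group of `k` (or the fundamental group of a model), `K` a number
field and `s : G_K → Γ` the homomorphism given by a closed point of the generic fibre of a model of
`X` (if `k` is a number field, then `K = k` and `s` is the identity).

**Theorem.** Suppose that for one place `v` of good reduction, prime to `ℓ`, the characteristic
polynomial of Frobenius on `T` is `Q` or `(X - 1) Q`, where the roots of `Q` form `b` pairs
`{x, 1 / x}` which are permuted doubly homogeneously by `Gal(ℚ)`. Then the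
Mumford-Tate conjecture for `H²(X)` at `ℓ` holds if and only if `T ⊗ ℚ_ℓ` is semisimple and its
endomorphisms over finite extensions are scalars. It holds without any hypothesis on the
representation if `Q` is irreducible over `ℚ_ℓ` and
* (even rank) at some second place the polynomial has a root in `ℚ_ℓ`; or
* (odd rank) at some second place, with polynomial `(X - 1) R`, the number
  `Q(1) Q(-1) R(1) R(-1)` is not a square in `ℚ_ℓ`.
-/

set_option autoImplicit false

namespace Pool.Agent.Results.MP_6369ef_ag.HomogeneousPlaceH82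

open MvPolynomial Matrix NumberField IsDedekindDomain
open Pool.Agent.W544.PG (HS)

noncomputable section

section groups

variable {ι : Type} [Fintype ι] [DecidableEq ι]

/-- The value of a rational polynomial in the entries at a matrix. -/
def value {R : Type} [CommRing R] [Algebra ℚ R] (g : Matrix ι ι R)
    (f : MvPolynomial (ι × ι) ℚ) : R :=
  aeval (fun q : ι × ι => g q.1 q.2) f

/-- `G` is the set of complex points of an algebraic subgroup over `ℚ` of the general linear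
group. -/
def IsQGroup (G : Set (Matrix ι ι ℂ)) : Prop :=
  (∃ P : Set (MvPolynomial (ι × ι) ℚ), ∀ g, g ∈ G ↔ g.det ≠ 0 ∧ ∀ f ∈ P, value g f = 0) ∧
  1 ∈ G ∧ (∀ a ∈ G, ∀ b ∈ G, a * b ∈ G) ∧ ∀ a ∈ G, a⁻¹ ∈ G

/-- The complex points of the Mumford-Tate group: the smallest algebraic subgroup over `ℚ` which
contains `h z` for all `z`. -/
def mumfordTate (h : ℂ → Matrix ι ι ℂ) : Set (Matrix ι ι ℂ) :=
  {g | ∀ G, IsQGroup G → (∀ z, z ≠ 0 → h z ∈ G) → g ∈ G}

/-- The points of the Mumford-Tate group over a field `R`. -/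
def InMumfordTate {R : Type} [Field R] [Algebra ℚ R] (h : ℂ → Matrix ι ι ℂ)
    (g : Matrix ι ι R) : Prop :=
  ∀ f : MvPolynomial (ι × ι) ℚ, (∀ m ∈ mumfordTate h, value m f = 0) → value g f = 0

variable {ℓ : ℕ} [Fact ℓ.Prime] {Γ : Type} [Group Γ]

/-- The points of the identity component of the Zariski closure of `ρ(Γ)` over the algebraic
closure of `ℚ_ℓ`: a polynomial that vanishes on the image of a subgroup of finite index vanishes
at `g`. -/
def InMonodromy (ρ : Γ →* Matrix ι ι ℚ_[ℓ]) (g : Matrix ι ι (AlgebraicClosure ℚ_[ℓ])) : Prop :=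
  ∀ f : MvPolynomial (ι × ι) (AlgebraicClosure ℚ_[ℓ]),
    (∃ Δ : Subgroup Γ, Δ.FiniteIndex ∧ ∀ s ∈ Δ,
      aeval (fun q : ι × ι => algebraMap ℚ_[ℓ] (AlgebraicClosure ℚ_[ℓ]) (ρ s q.1 q.2)) f = 0) →
    aeval (fun q : ι × ι => g q.1 q.2) f = 0

/-- The Mumford-Tate conjecture: the two groups agree over `ℚ_ℓ`. -/
def MumfordTateConjecture (h : ℂ → Matrix ι ι ℂ) (ρ : Γ →* Matrix ι ι ℚ_[ℓ]) : Prop :=
  ∀ g : Matrix ι ι (AlgebraicClosure ℚ_[ℓ]), g.det ≠ 0 → (InMonodromy ρ g ↔ InMumfordTate h g)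

end groups

variable {n : ℕ}

/-- The action of `ℂ^×` on `N ⊕ T`: trivial on `N`, and on `T` it is multiplication by `conj z / z`,
`1`, `z / conj z` on the parts where `T.x` is `1`, `0`, `-1`. -/
def hodge (κ : Type) [Fintype κ] [DecidableEq κ] (T : HS n) (z : ℂ) :
    Matrix (κ ⊕ Fin n) (κ ⊕ Fin n) ℂ :=
  fromBlocks 1 0 0 (1 + ((starRingEnd ℂ z / z - 1) / 2) • (T.x * T.x + T.x) +
    ((z / starRingEnd ℂ z - 1) / 2) • (T.x * T.x - T.x))

/-- An `ℓ`-adic integral matrix as a matrix over `ℚ_ℓ`. -/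
def rat {ℓ : ℕ} [Fact ℓ.Prime] (g : Matrix (Fin n) (Fin n) ℤ_[ℓ]) :
    Matrix (Fin n) (Fin n) ℚ_[ℓ] :=
  g.map (algebraMap ℤ_[ℓ] ℚ_[ℓ])

/-- The representation `α ⊕ β` of the Galois group on `N ⊕ T`. -/
def galois {κ : Type} [Fintype κ] [DecidableEq κ] {ℓ : ℕ} [Fact ℓ.Prime] {Γ : Type} [Group Γ]
    (α : Γ →* Matrix κ κ ℚ_[ℓ]) (β : Γ →* Matrix (Fin n) (Fin n) ℤ_[ℓ]) :
    Γ →* Matrix (κ ⊕ Fin n) (κ ⊕ Fin n) ℚ_[ℓ] where
  toFun σ := fromBlocks (α σ) 0 0 (rat (β σ))
  map_one' := (Pool.Agent.Y95.MT.tot α β).map_one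
  map_mul' := (Pool.Agent.Y95.MT.tot α β).map_mul

/-- the absolute Galois group of `K`, with its profinite (Krull) topology -/
abbrev AbsoluteGaloisGroup (K : Type) [Field K] : Type := Gal(AlgebraicClosure K/K)

/-- `σ` is an (arithmetic) Frobenius element at the prime `v` of the number field `K`: for some prime
`Q` of the algebraic closure above `v` it acts on the residue field as `x ↦ x ^ N(v)` -/
def IsFrobenius {K : Type} [Field K] [NumberField K] (v : HeightOneSpectrum (𝓞 K))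
    (σ : AbsoluteGaloisGroup K) : Prop :=
  ∃ Q : Ideal (𝓞 (AlgebraicClosure K)), Q.IsMaximal ∧
    Q.comap (algebraMap (𝓞 K) (𝓞 (AlgebraicClosure K))) = v.asIdeal ∧
    ∀ x : 𝓞 (AlgebraicClosure K), σ • x - x ^ Ideal.absNorm v.asIdeal ∈ Q

/-- `α` and `β` are the representations on the algebraic classes and on `T`: both are continuous, `α` has
finite image, `β` preserves the form of `T`, and for all `v ∉ S` which are prime to `ℓ` the
characteristic polynomial of (the image under `s` of) the geometric Frobenius elements `σ⁻¹` (`σ`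
arithmetic) at `v` on `T` is `P v` -/
def IsSystem {K : Type} [Field K] [NumberField K] {Γ : Type} [Group Γ] [TopologicalSpace Γ]
    (s : AbsoluteGaloisGroup K →* Γ) {κ : Type} [Fintype κ] [DecidableEq κ] (T : HS n)
    (S : Set (HeightOneSpectrum (𝓞 K))) (P : HeightOneSpectrum (𝓞 K) → Polynomial ℚ) (ℓ : ℕ)
    [Fact ℓ.Prime] (α : Γ →* Matrix κ κ ℚ_[ℓ]) (β : Γ →* Matrix (Fin n) (Fin n) ℤ_[ℓ]) : Prop :=
  Continuous α ∧ (Set.range α).Finite ∧ Continuous β ∧
    (∀ σ, (rat (β σ))ᵀ * T.Q.map (algebraMap ℚ ℚ_[ℓ]) * rat (β σ) =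
      T.Q.map (algebraMap ℚ ℚ_[ℓ])) ∧
    ∀ v ∉ S, (ℓ : 𝓞 K) ∉ v.asIdeal → ∀ σ : AbsoluteGaloisGroup K, IsFrobenius v σ →
      (rat (β (s σ⁻¹))).charpoly = (P v).map (algebraMap ℚ ℚ_[ℓ])

/-- Every stable subspace has a stable complement. -/
def IsSemisimple {ℓ : ℕ} [Fact ℓ.Prime] {Γ : Type} [Group Γ]
    (β : Γ →* Matrix (Fin n) (Fin n) ℤ_[ℓ]) : Prop :=
  ∀ W : Submodule ℚ_[ℓ] (Fin n → ℚ_[ℓ]), (∀ σ, ∀ w ∈ W, rat (β σ) *ᵥ w ∈ W) →
    ∃ W' : Submodule ℚ_[ℓ] (Fin n → ℚ_[ℓ]), IsCompl W W' ∧ ∀ σ, ∀ w ∈ W', rat (β σ) *ᵥ w ∈ W'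

/-- Every endomorphism which commutes with an open subgroup is a scalar. -/
def HasScalarCommutants {ℓ : ℕ} [Fact ℓ.Prime] {Γ : Type} [Group Γ] [TopologicalSpace Γ]
    (β : Γ →* Matrix (Fin n) (Fin n) ℤ_[ℓ]) : Prop :=
  ∀ (A : Matrix (Fin n) (Fin n) ℚ_[ℓ]) (U : Subgroup Γ), IsOpen (U : Set Γ) →
    (∀ σ ∈ U, A * rat (β σ) = rat (β σ) * A) → ∃ c : ℚ_[ℓ], A = c • (1 : Matrix _ _ ℚ_[ℓ])

/-- The algebraic closure of the rational numbers. -/
abbrev QB : Type := AlgebraicClosure ℚ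

/-- Different roots of `F` have different `k`-th powers for all `k > 0`. -/
def HasDistinctPowers (F : Polynomial ℚ) : Prop :=
  ∀ (k : ℕ) (x y : QB), 0 < k → Polynomial.aeval x F = 0 → Polynomial.aeval y F = 0 →
    x ^ k = y ^ k → x = y

/-- `x` and `y` are equal or inverse to each other. -/
def SamePair (x y : QB) : Prop := x = y ∨ x * y = 1

/-- `Q` has `2 b` different roots, with different powers, the Galois group acts transitively on them,
and for any two different pairs `{x, 1 / x}`, `{y, 1 / y}` and any two different pairs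
`{x', 1 / x'}`, `{y', 1 / y'}` there is an automorphism which carries the set of the first two
pairs to the set of the last two. -/
def HasHomogeneousPairs (Q : Polynomial ℚ) (b : ℕ) : Prop :=
  Q.Separable ∧ Q.natDegree = 2 * b ∧ HasDistinctPowers Q ∧
  (∀ x y : QB, Polynomial.aeval x Q = 0 → Polynomial.aeval y Q = 0 →
    ∃ σ : QB ≃ₐ[ℚ] QB, σ x = y) ∧
  ∀ x y x' y' : QB, Polynomial.aeval x Q = 0 → Polynomial.aeval y Q = 0 →
    Polynomial.aeval x' Q = 0 → Polynomial.aeval y' Q = 0 →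
    ¬ SamePair x y → ¬ SamePair x' y' → ∃ σ : QB ≃ₐ[ℚ] QB,
      (SamePair (σ x) x' ∧ SamePair (σ y) y') ∨ (SamePair (σ x) y' ∧ SamePair (σ y) x')

theorem isHom {Q : Polynomial ℚ} {b : ℕ} (h : HasHomogeneousPairs Q b)
    (hb : b ∉ ({3, 4, 10, 16, 28} : Set ℕ)) : Pool.Agent.V7H82.PR.IsHom Q b := by
  have h1 : ∀ x y : QB, Pool.Agent.V7H82.PR.SameRootPair 1 x y ↔ SamePair x y := fun x y => by
    unfold Pool.Agent.V7H82.PR.SameRootPair SamePair
    rw [Rat.cast_one]
  refine ⟨h.1, h.2.1, ⟨h.2.2.2.1, ?_⟩, h.2.2.1, ?_⟩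
  · intro x y x' y' hx hy hx' hy' h2 h3
    rw [h1] at h2 h3
    obtain ⟨σ, hσ⟩ := h.2.2.2.2 x y x' y' hx hy hx' hy' h2 h3
    refine ⟨σ, ?_⟩
    rw [h1, h1, h1, h1]
    exact hσ
  · simp only [Set.mem_insert_iff, Set.mem_singleton_iff, not_or] at hb
    exact hb

/-- **The Mumford-Tate conjecture for `H² = N ⊕ T` at a single prime `ℓ`, from one Frobenius
polynomial.** -/
theorem result (T : HS n)
    -- the Hodge structure
    (hEnd : ∀ A : Matrix (Fin n) (Fin n) ℚ,
      A.map (fun a : ℚ => (a : ℂ)) * T.x = T.x * A.map (fun a : ℚ => (a : ℂ)) →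
      ∃ c : ℚ, A = c • (1 : Matrix (Fin n) (Fin n) ℚ))
    (p q : ℕ) (htr : (T.x * T.x).trace = 2 * (p : ℂ)) (hn : n = 2 * p + q)
    (hpq : (p = 1 ∧ 0 < q ∧ q ≠ 2) ∨
      (0 < p ∧ 2 * p ^ 2 * (p ^ 2 + 1) < (q - 2 * p) * (q + p)))
    -- the Galois group
    (K : Type) [Field K] [NumberField K] (Γ : Type) [Group Γ] [TopologicalSpace Γ]
    [IsTopologicalGroup Γ] [CompactSpace Γ] (s : AbsoluteGaloisGroup K →* Γ) (hs : Continuous s)
    (S : Set (HeightOneSpectrum (𝓞 K))) (P : HeightOneSpectrum (𝓞 K) → Polynomial ℚ)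
    (κ : Type) [Fintype κ] [DecidableEq κ] (ℓ : ℕ) [Fact ℓ.Prime]
    (α : Γ →* Matrix κ κ ℚ_[ℓ]) (β : Γ →* Matrix (Fin n) (Fin n) ℤ_[ℓ])
    (hsys : IsSystem s T S P ℓ α β)
    -- the place
    (v : HeightOneSpectrum (𝓞 K)) (hv : v ∉ S) (hvℓ : (ℓ : 𝓞 K) ∉ v.asIdeal)
    (Q : Polynomial ℚ) (hPv : P v = Q ∨ P v = (Polynomial.X - 1) * Q)
    (b : ℕ) (hb : b ∉ ({3, 4, 10, 16, 28} : Set ℕ)) (hQ : HasHomogeneousPairs Q b) :
    -- an equivalence
    (MumfordTateConjecture (hodge κ T) (galois α β) ↔ IsSemisimple β ∧ HasScalarCommutants β) ∧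
    -- explicit criteria
    (Irreducible (Q.map (algebraMap ℚ ℚ_[ℓ])) → ∀ u ∉ S, (ℓ : 𝓞 K) ∉ u.asIdeal →
      (P v = Q → (P u).Separable → HasDistinctPowers (P u) →
        (∃ a : ℚ_[ℓ], Polynomial.aeval a (P u) = 0) →
        MumfordTateConjecture (hodge κ T) (galois α β)) ∧
      (∀ R : Polynomial ℚ, P v = (Polynomial.X - 1) * Q → P u = (Polynomial.X - 1) * R →
        (∀ (k : ℕ) (x : QB), 0 < k → Polynomial.aeval x R = 0 → x ^ k ≠ 1) →
        ¬ IsSquare ((Q.eval 1 * Q.eval (-1) * (R.eval 1 * R.eval (-1)) : ℚ) : ℚ_[ℓ]) →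
        MumfordTateConjecture (hodge κ T) (galois α β))) := by
  have hp : 0 < p := by
    rcases hpq with h | h
    · rw [h.1]
      exact one_pos
    · exact h.1
  have hB : T.Big (Pool.Agent.R932.one1 n) (fun _ => p) (fun _ => q) := by
    refine ⟨fun a b hab => absurd rfl hab, fun a b hab => absurd rfl hab, fun A hA => ?_,
      fun i => ?_, fun i => ?_, fun i => ?_⟩
    · obtain ⟨c, hc⟩ := hEnd A hA
      exact ⟨fun _ => c, by rw [hc, Matrix.smul_one_eq_diagonal]⟩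
    · rw [← htr, Matrix.trace]
      refine Finset.sum_congr ?_ fun _ _ => rfl
      ext a
      simp [Subsingleton.elim (0 : Fin 1) i]
    · have h1 : (Finset.univ.filter fun a : Fin n => Pool.Agent.R932.one1 n a = i) =
          Finset.univ := by
        ext a
        simp [Subsingleton.elim (0 : Fin 1) i]
      rw [h1, Finset.card_univ, Fintype.card_fin, hn]
    · exact hpq
  have hrep : Pool.Agent.R932.RepT s T S P ℓ β := ⟨hsys.2.2.1, hsys.2.2.2.1, hsys.2.2.2.2⟩
  have hhom := isHom hQ hb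
  have hn0 : 0 < n := by omega
  refine ⟨Pool.Agent.V7H82.PR.mtc_iff hB hn0 hsys.1 hsys.2.1 hrep hv hvℓ hPv hhom, ?_⟩
  intro hirr u hu huℓ
  refine ⟨fun h1 hsep hpow ha => ?_, fun R h1 h2 hR hsq => ?_⟩
  · obtain ⟨a, ha⟩ := ha
    refine Pool.Agent.V7H82.PR.mtc_of_fullLie hB hsys.1 hsys.2.1 hrep ?_
    exact Pool.Agent.V7H82.PR.full_even_expl hrep hv hvℓ (by rw [h1]; exact hhom) hn0
      (by rw [h1]; exact hirr) hu huℓ hsep hpow ha
  · refine Pool.Agent.V7H82.PR.mtc_of_fullLie hB hsys.1 hsys.2.1 hrep ?_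
    refine Pool.Agent.V7H82.PR.full_odd_expl hrep hs hv hvℓ h1 hhom ?_ hirr hu huℓ h2 hR hsq
    have h3 := Pool.Agent.V7H82.PR.natDegree_place hrep hv hvℓ
    have h4 : (Polynomial.X - 1 : Polynomial ℚ).Monic := by
      have h5 := Polynomial.monic_X_sub_C (1 : ℚ)
      rwa [map_one] at h5
    rw [h1, h4.natDegree_mul' hQ.1.ne_zero, hQ.2.1] at h3
    have h6 : (Polynomial.X - 1 : Polynomial ℚ).natDegree = 1 := by
      have h5 := Polynomial.natDegree_X_sub_C (1 : ℚ)
      rwa [map_one] at h5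
    rw [h6] at h3
    exact ⟨b, by omega⟩

end

end Pool.Agent.Results.MP_6369ef_ag.HomogeneousPlaceH82
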