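import Pool.Agent.V7H44.MT.Tri
import Pool.Agent.V7H44.MT.Zp

/-!
# The Mumford-Tate conjecture for `H²` at `p` is decided at one place

Let `M / K` be a finite extension of number fields, `p` a prime number, `S` a set of finite places and
`w` one place of `M` which does not split completely in any cyclic extension of `M` of degree `p`
unramified at the finite places not in `S` (`NonSplit`; for finite `S` this is a finite computation in
the class group and the `S`-units of `M`, and the theorem needs nothing else). Examples are given in
(1): `p = 2`, `w` above `2`, and `M = ℚ(√-d)`, `S = {2}`, where `d` is a prime number that is `7` modulo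
`16` or the product of a prime `5` modulo `8` and a prime `3` modulo `8` (then `2` splits in `M`, and `w`
is ONE of the two places), or `M = ℚ`, `S = {2, q}`, `q` a prime number that is `3` or `5` modulo `8`; and
with `M` all the fields in the `p`-extensions of `M` unramified outside `S`.

Let `X / K` be a smooth projective variety which has good reduction outside `S` over `M`, and let
`V = H²(X̄, ℚ_p(1))`. We suppose that `H²(X̄, ℤ_p(1))` modulo torsion is residually unipotent over `M`:
the Galois group of `M` acts through a `p`-group modulo `p` (this is a condition on `X` only if `M` is
fixed; `M` may be replaced by a field which contains the field of definition of the classes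
modulo `p`, if the condition on `w` remains true). In the formal statement `V` is any continuous
representation of `G_K` of dimension `n`, over the fraction field `F` of a Noetherian local domain `A`
with finite residue field of characteristic `p` (for example `F = ℚ_p`), whose restriction to `G_M` is
residually unipotent and unramified outside `S` (the last part of (1) says that `A = ℤ_p` is allowed);
so the theorem can also be applied to the other cohomology groups, to their tensor products and to
sums over several varieties.

(2) The identity component of the `p`-adic algebraic monodromy group of `X` (`InMonodromy`: the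
identity component of the Zariski closure of the image of `G_K`) is equal to the identity component
of the Zariski closure of the image of the decomposition group of the one place `w` of `M`.

(3) So the Mumford-Tate conjecture for `H²(X)` at `p` is equivalent to a statement about the local
representation at `w`: the local monodromy group is the Mumford-Tate group. Here `h` is the Hodge
structure; no hypothesis on it is needed.

(4) The Tate classes, that is, the vectors fixed by an open subgroup of `G_K`, are the vectors which
are fixed by a subgroup of finite index of the decomposition group of `w`.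

(5) Suppose that `V` is potentially triangular at `w`: an open subgroup of the decomposition group
of `w` acts by triangular matrices over the algebraic closure of `F`. This is so if `w` divides `p` and `X`
has potentially ordinary reduction at `w` in the sense of Bloch and Kato: then the restriction to
a subgroup of finite index has a filtration, the inertia group acts on the quotients by powers of the
cyclotomic character, and so the whole group acts on them through a commutative group. Then `V` is
potentially triangular for `G_K`. If `V` is semisimple (as Tate's conjecture says; this is known for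
abelian varieties and for K3 surfaces) then an open subgroup of `G_K` acts by commuting matrices, and
if the Mumford-Tate conjecture is true for `X` at `p`, then the Mumford-Tate group of `H²(X)` is
commutative, that is, `X` has complex multiplication. For K3 surfaces the Mumford-Tate conjecture is a
theorem of Tankeev and André, so: a K3 surface over `K` which has good reduction outside `S` over `M`
and unipotent `H²(X̄, 𝔽_p)` over `M`, and potentially ordinary reduction at the one place `w`, has
complex multiplication.

The deductions in the last sentences from the theorems of Bloch and Kato, Tankeev, André and Faltings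
are not part of the formal proof.

## Proof

By Burnside's basis theorem for the Galois group of the maximal `p`-extension of `M` unramified
outside `S` the image of the decomposition group of `w` is dense in the image of `G_M`. A polynomial
over the algebraic closure of `F` which vanishes on a subgroup of finite index `D'` of the local
image vanishes on its `p`-adic closure (linear forms over `F` and Krull's intersection theorem), and
this closure has finite index in the image of `G_K`. For (5): in a semisimple triangular representation
the vectors `v` with `σ τ v = τ σ v` for all `σ`, `τ` are a stable subspace which contains all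
eigenvectors, and its complement would contain another eigenvector; and the Zariski closure of a
commutative group is commutative.
-/

set_option autoImplicit false

open IsLocalRing Matrix

namespace Pool.Agent.Results.MP_6369ef_ag.OnePlaceH44

open Pool.Agent.V7H44.DVS Pool.Agent.V7H44.MT

/-- **The Mumford-Tate conjecture at one place.** -/
theorem result :
    -- (1) the criterion: two families, and inheritance in `p`-extensions
    ((∀ d : ℕ, ((d.Prime ∧ d % 16 = 7) ∨
        ∃ a b : ℕ, a.Prime ∧ b.Prime ∧ a % 8 = 5 ∧ b % 8 = 3 ∧ d = a * b) →
        ∀ s : QBar, s ^ 2 = -(d : QBar) → ∀ H : Subgroup AbsGal, (∀ σ, σ ∈ H ↔ app σ s = s) →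
          ∀ ι : Place 2, NonSplit 2 H (outside (above {2})) (Dec ι)) ∧
      (∀ q : ℕ, q.Prime → q % 8 = 3 ∨ q % 8 = 5 → ∀ ι : Place 2,
          NonSplit 2 (⊤ : Subgroup AbsGal) (outside (above {2, q})) (Dec ι)) ∧
      (∀ (p ℓ : ℕ) [Fact p.Prime] [Fact ℓ.Prime] (K L : Subgroup AbsGal), IsOpen (K : Set AbsGal) →
        ∀ (S : PlaceSet) (ι : Place ℓ), IsPlaceSet K S → NonSplit p K (outside S) (Dec ι) →
          InPExtension p K L (outside S) → NonSplit p L (outside S) (Dec ι)) ∧
      -- `ℤ_p` is allowed as a ring of coefficients
      (∀ (p : ℕ) [Fact p.Prime], Coefficients p ℤ_[p] ℚ_[p])) ∧
    -- `K` and `M` are number fields with absolute Galois groups `H` and `H'`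
    ∀ (p ℓ : ℕ) [Fact p.Prime] [Fact ℓ.Prime] (H H' : Subgroup AbsGal), H' ≤ H →
      IsOpen (H' : Set AbsGal) →
    ∀ (S : PlaceSet) (ι : Place ℓ), NonSplit p H' (outside S) (Dec ι) →
    ∀ (A F : Type) [CommRing A] [IsLocalRing A] [TopologicalSpace A] [Field F] [Algebra A F],
      Coefficients p A F →
    ∀ (n : ℕ) (ρ : AbsGal → Matrix (Fin n) (Fin n) A), IsRep H H' (outside S) ρ →
    -- (2) the global monodromy group is the local one
    (∀ g : Matrix (Fin n) (Fin n) (AlgebraicClosure F),
      InMonodromy F H (H : Set AbsGal) ρ g ↔ InMonodromy F H {δ | δ ∈ H' ∧ δ ∈ Dec ι} ρ g) ∧
    -- (3) the Mumford-Tate conjecture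
    (∀ h : ℂ → Matrix (Fin n) (Fin n) ℂ, MumfordTateOn F H (H : Set AbsGal) ρ h ↔
      MumfordTateOn F H {δ | δ ∈ H' ∧ δ ∈ Dec ι} ρ h) ∧
    -- (4) Tate classes
    (∀ v : Fin n → AlgebraicClosure F, Invariant F H {δ | δ ∈ H' ∧ δ ∈ Dec ι} ρ v →
      Invariant F H (H : Set AbsGal) ρ v) ∧
    -- (5) potentially ordinary reduction at one place
    (PotentiallyTriangular F H {δ | δ ∈ H' ∧ δ ∈ Dec ι} ρ →
      PotentiallyTriangular F H (H : Set AbsGal) ρ ∧
      (Semisimple F H ρ → PotentiallyAbelian H ρ ∧
        ∀ h : ℂ → Matrix (Fin n) (Fin n) ℂ, MumfordTateOn F H (H : Set AbsGal) ρ h →
          ∀ g g' : Matrix (Fin n) (Fin n) (AlgebraicClosure F), g.det ≠ 0 → g'.det ≠ 0 →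
            InMumfordTate h g → InMumfordTate h g' → g * g' = g' * g)) := by
  refine ⟨⟨fun d hd s hs H hH ι => family_quad hd hs H hH ι,
    fun q hq hq8 ι => family_two hq hq8 ι,
    fun p ℓ _ _ K L hK S ι hS h hL => ?_, fun p _ => coeff_padic p⟩, ?_⟩
  · rw [← coe_DecS] at h ⊢
    exact inherit hK (fun t ht r hr => outside_conj hS t ht r hr) h hL
  · intro p ℓ _ _ H H' hH hH' S ι h A F _ _ _ _ _ hA n ρ hρ
    rw [← coe_DecS] at h
    refine ⟨fun g => monodromy hA hH hH' h hρ g, fun h' => ?_,
      fun v hv => classes hA hH hH' h hρ v hv, fun ht => ?_⟩
    · refine forall_congr' fun g => forall_congr' fun _ => ?_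
      rw [monodromy hA hH hH' h hρ g]
      exact Iff.rfl
    · obtain ⟨h1, h2⟩ := triangular hA hH hH' h hρ ht
      refine ⟨h1, fun hss => ⟨h2 hss, fun h' hMT g g' hg hg' hm hm' => ?_⟩⟩
      exact comm_closure (F := F) (h2 hss) g g' ((hMT g hg).2 hm) ((hMT g' hg').2 hm')

end Pool.Agent.Results.MP_6369ef_ag.OnePlaceH44
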