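import Mathlib
import Pool.Agent.V7H82.OD.Expl

/-!
# The Mumford-Tate conjecture for `H²`: one prime `ℓ` decides

Let `X` be a smooth projective variety over a field `k` which is finitely generated over `ℚ`, with
`H²(X, ℚ)(1) = N ⊕ T_1 ⊕ ... ⊕ T_r`, `N` the algebraic classes (`k^κ`), and `T = T_1 ⊕ ... ⊕ T_r` the
transcendental part, where the `T_i` are pairwise not isomorphic, with the Hodge numbers
`(p_i, q_i, p_i)` and without endomorphisms besides the rational scalars, with `p_i = 1` or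
`2 p_i² (p_i² + 1) < (q_i - 2 p_i) (q_i + p_i)` (for example `p_i = 2`, `q_i ≥ 9`), and of rank
`n_i = 2 p_i + q_i` equal to `5`, `7`, or at least `8`. (For example `H²` of a surface, or of a
product of surfaces with `b_1 = 0`.) `Γ` is the Galois group of `k` (or the fundamental group of a
model), `K` a number field and `s : G_K → Γ` the homomorphism given by a closed point of the generic
fibre of a model of `X` (if `k` is a number field, then `K = k` and `s` is the identity).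

Let `ℓ₀` be ONE prime number, which does not divide `n_i - 1` for the odd `n_i`, and which does not
divide `(n_i - 2) (n_i - 4)`, and whose exponent in the discriminant of `T_i` is even, for the even
`n_i`. Suppose that

* (a) the Mumford-Tate conjecture for `H²` (over `K`) holds for `ℓ₀`; or
* (b) for all `i` there are two places `v`, `u` of good reduction, prime to `ℓ₀`, with the following
  properties: the Frobenius polynomial of `T_i` at `v` is `Q` or `(X - 1) Q`, where `Q` is irreducible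
  over the field of `ℓ₀`-adic numbers, and the roots of `Q` form `b` pairs `{x, 1 / x}` which are permuted
  doubly homogeneously by `Gal(ℚ)`, `b ≠ 3, 4, 10, 16, 28`; and the Frobenius polynomial at `u` has a
  root in the field of `ℓ₀`-adic numbers and simple roots with different powers (even rank), or it is
  `(X - 1) R`, where no root of `R` is a root of unity and `Q(1) Q(-1) R(1) R(-1)` is not a square in the
  field of `ℓ₀`-adic numbers (odd rank). If `r > 1`, then moreover for all `i` there is a place where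
  some root of the polynomial of `T_i` has no positive power in the multiplicative group generated by
  the rational numbers and the roots of the polynomials of the other `T_j`.

**Theorem.**
1. The Mumford-Tate conjecture for `H²(X)` holds for all `ℓ` outside a set of natural density zero.
2. For EVERY prime number `ℓ` the Mumford-Tate conjecture for `H²(X)` at `ℓ` holds if and only if the
   representations `T_i ⊗ ℚ_ℓ` are semisimple and their endomorphisms over finite extensions are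
   scalars.
-/

set_option autoImplicit false

namespace Pool.Agent.Results.MP_6369ef_ag.OnePrimeDecidesH82

open MvPolynomial Matrix Filter Topology NumberField IsDedekindDomain
open Pool.Agent.W544.PG (HS)

noncomputable section

section groups

variable {ι : Type} [Fintype ι] [DecidableEq ι]

/-- The value of a rational polynomial in the entries at a matrix. -/
def value {R : Type} [CommRing R] [Algebra ℚ R] (g : Matrix ι ι R)
    (f : MvPolynomial (ι × ι) ℚ) : R :=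
  aeval (fun q : ι × ι => g q.1 q.2) f

/-- `G` is the set of complex points of an algebraic subgroup over `ℚ` of the general linear
group. -/
def IsQGroup (G : Set (Matrix ι ι ℂ)) : Prop :=
  (∃ P : Set (MvPolynomial (ι × ι) ℚ), ∀ g, g ∈ G ↔ g.det ≠ 0 ∧ ∀ f ∈ P, value g f = 0) ∧
  1 ∈ G ∧ (∀ a ∈ G, ∀ b ∈ G, a * b ∈ G) ∧ ∀ a ∈ G, a⁻¹ ∈ G

/-- The complex points of the Mumford-Tate group: the smallest algebraic subgroup over `ℚ` which
contains `h z` for all `z`. -/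
def mumfordTate (h : ℂ → Matrix ι ι ℂ) : Set (Matrix ι ι ℂ) :=
  {g | ∀ G, IsQGroup G → (∀ z, z ≠ 0 → h z ∈ G) → g ∈ G}

/-- The points of the Mumford-Tate group over a field `R`. -/
def InMumfordTate {R : Type} [Field R] [Algebra ℚ R] (h : ℂ → Matrix ι ι ℂ)
    (g : Matrix ι ι R) : Prop :=
  ∀ f : MvPolynomial (ι × ι) ℚ, (∀ m ∈ mumfordTate h, value m f = 0) → value g f = 0

variable {ℓ : ℕ} [Fact ℓ.Prime] {Γ : Type} [Group Γ]

/-- The points of the identity component of the Zariski closure of `ρ(Γ)` over the algebraic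
closure of `ℚ_ℓ`: a polynomial that vanishes on the image of a subgroup of finite index vanishes
at `g`. -/
def InMonodromy (ρ : Γ →* Matrix ι ι ℚ_[ℓ]) (g : Matrix ι ι (AlgebraicClosure ℚ_[ℓ])) : Prop :=
  ∀ f : MvPolynomial (ι × ι) (AlgebraicClosure ℚ_[ℓ]),
    (∃ Δ : Subgroup Γ, Δ.FiniteIndex ∧ ∀ s ∈ Δ,
      aeval (fun q : ι × ι => algebraMap ℚ_[ℓ] (AlgebraicClosure ℚ_[ℓ]) (ρ s q.1 q.2)) f = 0) →
    aeval (fun q : ι × ι => g q.1 q.2) f = 0

/-- The Mumford-Tate conjecture: the two groups agree over `ℚ_ℓ`. -/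
def MumfordTateConjecture (h : ℂ → Matrix ι ι ℂ) (ρ : Γ →* Matrix ι ι ℚ_[ℓ]) : Prop :=
  ∀ g : Matrix ι ι (AlgebraicClosure ℚ_[ℓ]), g.det ≠ 0 → (InMonodromy ρ g ↔ InMumfordTate h g)

end groups

variable {n r : ℕ}

/-- The action of `ℂ^×` on `N ⊕ T`: trivial on `N`, and on `T` it is multiplication by `conj z / z`,
`1`, `z / conj z` on the parts where `T.x` is `1`, `0`, `-1`. -/
def hodge (κ : Type) [Fintype κ] [DecidableEq κ] (T : HS n) (z : ℂ) :
    Matrix (κ ⊕ Fin n) (κ ⊕ Fin n) ℂ :=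
  fromBlocks 1 0 0 (1 + ((starRingEnd ℂ z / z - 1) / 2) • (T.x * T.x + T.x) +
    ((z / starRingEnd ℂ z - 1) / 2) • (T.x * T.x - T.x))

/-- An `ℓ`-adic integral matrix as a matrix over `ℚ_ℓ`. -/
def rat {ℓ : ℕ} [Fact ℓ.Prime] (g : Matrix (Fin n) (Fin n) ℤ_[ℓ]) :
    Matrix (Fin n) (Fin n) ℚ_[ℓ] :=
  g.map (algebraMap ℤ_[ℓ] ℚ_[ℓ])

/-- The representation `α ⊕ β` of the Galois group on `N ⊕ T`. -/
def galois {κ : Type} [Fintype κ] [DecidableEq κ] {ℓ : ℕ} [Fact ℓ.Prime] {Γ : Type} [Group Γ]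
    (α : Γ →* Matrix κ κ ℚ_[ℓ]) (β : Γ →* Matrix (Fin n) (Fin n) ℤ_[ℓ]) :
    Γ →* Matrix (κ ⊕ Fin n) (κ ⊕ Fin n) ℚ_[ℓ] where
  toFun σ := fromBlocks (α σ) 0 0 (rat (β σ))
  map_one' := (Pool.Agent.Y95.MT.tot α β).map_one
  map_mul' := (Pool.Agent.Y95.MT.tot α β).map_mul

/-- `A` is block diagonal for the decomposition `c` of the index set. -/
def IsBlockDiagonal {R : Type} [Zero R] (c : Fin n → Fin r) (A : Matrix (Fin n) (Fin n) R) : Prop :=
  ∀ a b, c a ≠ c b → A a b = 0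

/-- The `i`-th diagonal block of `A`. -/
def block {R : Type} (c : Fin n → Fin r) (i : Fin r) (A : Matrix (Fin n) (Fin n) R) :
    Matrix {a // c a = i} {a // c a = i} R :=
  A.submatrix Subtype.val Subtype.val

/-- the absolute Galois group of `K`, with its profinite (Krull) topology -/
abbrev AbsoluteGaloisGroup (K : Type) [Field K] : Type := Gal(AlgebraicClosure K/K)

/-- `σ` is an (arithmetic) Frobenius element at the prime `v` of the number field `K`: for some prime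
`Q` of the algebraic closure above `v` it acts on the residue field as `x ↦ x ^ N(v)` -/
def IsFrobenius {K : Type} [Field K] [NumberField K] (v : HeightOneSpectrum (𝓞 K))
    (σ : AbsoluteGaloisGroup K) : Prop :=
  ∃ Q : Ideal (𝓞 (AlgebraicClosure K)), Q.IsMaximal ∧
    Q.comap (algebraMap (𝓞 K) (𝓞 (AlgebraicClosure K))) = v.asIdeal ∧
    ∀ x : 𝓞 (AlgebraicClosure K), σ • x - x ^ Ideal.absNorm v.asIdeal ∈ Q

/-- `α` and `β` are the representations on the algebraic classes and on `T = T_1 ⊕ ... ⊕ T_r`: both are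
continuous, `α` has finite image, `β` preserves the form of `T` and the `T_i`, and for all `v ∉ S`
which are prime to `ℓ` the characteristic polynomial of (the image under `s` of) the geometric
Frobenius elements `σ⁻¹` (`σ` arithmetic) at `v` on `T_i` is `P i v` -/
def IsSystem {K : Type} [Field K] [NumberField K] {Γ : Type} [Group Γ] [TopologicalSpace Γ]
    (s : AbsoluteGaloisGroup K →* Γ) {κ : Type} [Fintype κ] [DecidableEq κ] (T : HS n)
    (c : Fin n → Fin r) (S : Set (HeightOneSpectrum (𝓞 K)))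
    (P : Fin r → HeightOneSpectrum (𝓞 K) → Polynomial ℚ) (ℓ : ℕ)
    [Fact ℓ.Prime] (α : Γ →* Matrix κ κ ℚ_[ℓ]) (β : Γ →* Matrix (Fin n) (Fin n) ℤ_[ℓ]) : Prop :=
  Continuous α ∧ (Set.range α).Finite ∧ Continuous β ∧ (∀ σ, IsBlockDiagonal c (β σ)) ∧
    (∀ σ, (rat (β σ))ᵀ * T.Q.map (algebraMap ℚ ℚ_[ℓ]) * rat (β σ) =
      T.Q.map (algebraMap ℚ ℚ_[ℓ])) ∧
    ∀ i, ∀ v ∉ S, (ℓ : 𝓞 K) ∉ v.asIdeal → ∀ σ : AbsoluteGaloisGroup K, IsFrobenius v σ →
      (block c i (rat (β (s σ⁻¹)))).charpoly = (P i v).map (algebraMap ℚ ℚ_[ℓ])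

/-- Every subspace of `T_i ⊗ ℚ_ℓ` which is stable has a stable complement. -/
def IsSemisimple {ℓ : ℕ} [Fact ℓ.Prime] {Γ : Type} [Group Γ] (c : Fin n → Fin r) (i : Fin r)
    (β : Γ →* Matrix (Fin n) (Fin n) ℤ_[ℓ]) : Prop :=
  ∀ W : Submodule ℚ_[ℓ] ({a // c a = i} → ℚ_[ℓ]),
    (∀ σ, ∀ w ∈ W, block c i (rat (β σ)) *ᵥ w ∈ W) →
    ∃ W' : Submodule ℚ_[ℓ] ({a // c a = i} → ℚ_[ℓ]), IsCompl W W' ∧
      ∀ σ, ∀ w ∈ W', block c i (rat (β σ)) *ᵥ w ∈ W'

/-- Every endomorphism of `T_i ⊗ ℚ_ℓ` which commutes with an open subgroup is a scalar. -/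
def HasScalarCommutants {ℓ : ℕ} [Fact ℓ.Prime] {Γ : Type} [Group Γ] [TopologicalSpace Γ]
    (c : Fin n → Fin r) (i : Fin r) (β : Γ →* Matrix (Fin n) (Fin n) ℤ_[ℓ]) : Prop :=
  ∀ (A : Matrix {a // c a = i} {a // c a = i} ℚ_[ℓ]) (U : Subgroup Γ), IsOpen (U : Set Γ) →
    (∀ σ ∈ U, A * block c i (rat (β σ)) = block c i (rat (β σ)) * A) →
    ∃ z : ℚ_[ℓ], A = z • (1 : Matrix _ _ ℚ_[ℓ])

/-- The algebraic closure of the rational numbers. -/
abbrev QB : Type := AlgebraicClosure ℚ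

/-- Different roots of `F` have different `k`-th powers for all `k > 0`. -/
def HasDistinctPowers (F : Polynomial ℚ) : Prop :=
  ∀ (k : ℕ) (x y : QB), 0 < k → Polynomial.aeval x F = 0 → Polynomial.aeval y F = 0 →
    x ^ k = y ^ k → x = y

/-- `x` and `y` are equal or inverse to each other. -/
def SamePair (x y : QB) : Prop := x = y ∨ x * y = 1

/-- `Q` has `2 b` different roots, with different powers, the Galois group acts transitively on them,
and for any two different pairs `{x, 1 / x}`, `{y, 1 / y}` and any two different pairs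
`{x', 1 / x'}`, `{y', 1 / y'}` there is an automorphism which carries the set of the first two
pairs to the set of the last two. -/
def HasHomogeneousPairs (Q : Polynomial ℚ) (b : ℕ) : Prop :=
  Q.Separable ∧ Q.natDegree = 2 * b ∧ HasDistinctPowers Q ∧
  (∀ x y : QB, Polynomial.aeval x Q = 0 → Polynomial.aeval y Q = 0 →
    ∃ σ : QB ≃ₐ[ℚ] QB, σ x = y) ∧
  ∀ x y x' y' : QB, Polynomial.aeval x Q = 0 → Polynomial.aeval y Q = 0 →
    Polynomial.aeval x' Q = 0 → Polynomial.aeval y' Q = 0 →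
    ¬ SamePair x y → ¬ SamePair x' y' → ∃ σ : QB ≃ₐ[ℚ] QB,
      (SamePair (σ x) x' ∧ SamePair (σ y) y') ∨ (SamePair (σ x) y' ∧ SamePair (σ y) x')

/-- Conditions on the Frobenius polynomials of one summand at two places `v`, `u`: at `v` the pairs of
roots are doubly homogeneous and the nontrivial part `Q` is irreducible over `ℚ_ℓ`; the second place
has simple roots with different powers and a root in `ℚ_ℓ` (even rank), or it gives a discriminant
`Q(1) Q(-1) R(1) R(-1)` which is not a square in `ℚ_ℓ` (odd rank). -/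
def HasGoodPlaces {K : Type} [Field K] [NumberField K] (S : Set (HeightOneSpectrum (𝓞 K)))
    (P : HeightOneSpectrum (𝓞 K) → Polynomial ℚ) (ℓ : ℕ) [Fact ℓ.Prime] : Prop :=
  ∃ v ∉ S, (ℓ : 𝓞 K) ∉ v.asIdeal ∧ ∃ (b : ℕ) (Q : Polynomial ℚ),
    (b ∉ ({3, 4, 10, 16, 28} : Set ℕ) ∧ HasHomogeneousPairs Q b) ∧
    Irreducible (Q.map (algebraMap ℚ ℚ_[ℓ])) ∧ ∃ u ∉ S, (ℓ : 𝓞 K) ∉ u.asIdeal ∧
      ((P v = Q ∧ (P u).Separable ∧ HasDistinctPowers (P u) ∧
        ∃ a : ℚ_[ℓ], Polynomial.aeval a (P u) = 0) ∨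
      (P v = (Polynomial.X - 1) * Q ∧ ∃ R : Polynomial ℚ, P u = (Polynomial.X - 1) * R ∧
        (∀ (k : ℕ) (x : QB), 0 < k → Polynomial.aeval x R = 0 → x ^ k ≠ 1) ∧
        ¬ IsSquare ((Q.eval 1 * Q.eval (-1) * (R.eval 1 * R.eval (-1)) : ℚ) : ℚ_[ℓ])))

/-- Some root of `P` has no positive power in the multiplicative group generated by the nonzero
rational numbers and the roots of `R`. -/
def HasIndependentRoot (P R : Polynomial ℚ) : Prop :=
  ∃ x : ℂˣ, Polynomial.aeval (x : ℂ) P = 0 ∧ ∀ m : ℕ, 0 < m →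
    x ^ m ∉ Subgroup.closure {y : ℂˣ | Polynomial.aeval (y : ℂ) R = 0 ∨ ∃ q : ℚ, (y : ℂ) = (q : ℂ)}

/-- the set `A` of prime numbers has natural density zero -/
def HasDensityZero (A : Set ℕ) : Prop :=
  Tendsto (fun n : ℕ => (Nat.card {ℓ : ℕ // ℓ ≤ n ∧ ℓ ∈ A} : ℝ) / (Nat.primeCounting n : ℝ))
    atTop (𝓝 0)

theorem isHom {Q : Polynomial ℚ} {b : ℕ} (h : HasHomogeneousPairs Q b)
    (hb : b ∉ ({3, 4, 10, 16, 28} : Set ℕ)) : Pool.Agent.V7H82.PR.IsHom Q b := by
  have h1 : ∀ x y : QB, Pool.Agent.V7H82.PR.SameRootPair 1 x y ↔ SamePair x y := fun x y => by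
    unfold Pool.Agent.V7H82.PR.SameRootPair SamePair
    rw [Rat.cast_one]
  refine ⟨h.1, h.2.1, ⟨h.2.2.2.1, ?_⟩, h.2.2.1, ?_⟩
  · intro x y x' y' hx hy hx' hy' h2 h3
    rw [h1] at h2 h3
    obtain ⟨σ, hσ⟩ := h.2.2.2.2 x y x' y' hx hy hx' hy' h2 h3
    refine ⟨σ, ?_⟩
    rw [h1, h1, h1, h1]
    exact hσ
  · simp only [Set.mem_insert_iff, Set.mem_singleton_iff, not_or] at hb
    exact hb

/-- **The Mumford-Tate conjecture for `H² = N ⊕ T_1 ⊕ ... ⊕ T_r`: one prime `ℓ` decides.** -/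
theorem result (T : HS n) (c : Fin n → Fin r)
    -- the Hodge structure
    (hQ : IsBlockDiagonal c T.Q) (hx : IsBlockDiagonal c T.x)
    (hEnd : ∀ A : Matrix (Fin n) (Fin n) ℚ,
      A.map (fun a : ℚ => (a : ℂ)) * T.x = T.x * A.map (fun a : ℚ => (a : ℂ)) →
      ∃ d : Fin r → ℚ, A = Matrix.diagonal fun a => d (c a))
    (p q rk : Fin r → ℕ) (htr : ∀ i, ∑ a with c a = i, (T.x * T.x) a a = 2 * (p i : ℂ))
    (hrk : ∀ i, rk i = 2 * p i + q i) (hcard : ∀ i, Nat.card {a // c a = i} = rk i)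
    (hrk' : ∀ i, rk i = 5 ∨ rk i = 7 ∨ 8 ≤ rk i)
    (hpq : ∀ i, (p i = 1 ∧ 0 < q i) ∨
      (0 < p i ∧ 2 * p i ^ 2 * (p i ^ 2 + 1) < (q i - 2 * p i) * (q i + p i)))
    -- the Galois group
    (K : Type) [Field K] [NumberField K] (Γ : Type) [Group Γ] [TopologicalSpace Γ]
    [IsTopologicalGroup Γ] [CompactSpace Γ] (s : AbsoluteGaloisGroup K →* Γ) (hs : Continuous s)
    (S : Set (HeightOneSpectrum (𝓞 K))) (hS : S.Finite)
    (P : Fin r → HeightOneSpectrum (𝓞 K) → Polynomial ℚ)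
    (κ : Type) [Fintype κ] [DecidableEq κ]
    (α : ∀ (ℓ : ℕ) [Fact ℓ.Prime], Γ →* Matrix κ κ ℚ_[ℓ])
    (β : ∀ (ℓ : ℕ) [Fact ℓ.Prime], Γ →* Matrix (Fin n) (Fin n) ℤ_[ℓ])
    (hsys : ∀ (ℓ : ℕ) [Fact ℓ.Prime], IsSystem s T c S P ℓ (α ℓ) (β ℓ))
    -- one prime number
    (ℓ₀ : ℕ) [Fact ℓ₀.Prime]
    (hodd : ∀ i, Odd (rk i) → ¬ ℓ₀ ∣ rk i - 1)
    (heven : ∀ i, Even (rk i) → ¬ ℓ₀ ∣ (rk i - 2) * (rk i - 4) ∧
      Even (padicValRat ℓ₀ (block c i T.Q).det))
    (hone : MumfordTateConjecture (hodge κ T) ((galois (α ℓ₀) (β ℓ₀)).comp s) ∨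
      ((∀ i, HasGoodPlaces S (P i) ℓ₀) ∧ (1 < r → ∀ i, ∃ w ∉ S, (ℓ₀ : 𝓞 K) ∉ w.asIdeal ∧
        HasIndependentRoot (P i w) (∏ j ∈ Finset.univ.erase i, P j w)))) :
    HasDensityZero {ℓ | ∃ _ : Fact ℓ.Prime,
      ¬ MumfordTateConjecture (hodge κ T) (galois (α ℓ) (β ℓ))} ∧
    ∀ (ℓ : ℕ) [Fact ℓ.Prime], MumfordTateConjecture (hodge κ T) (galois (α ℓ) (β ℓ)) ↔
      ∀ i, IsSemisimple c i (β ℓ) ∧ HasScalarCommutants c i (β ℓ) := by
  classical
  have hnb : ∀ i, Pool.Agent.V7H82.OD.nb c i = rk i := fun i => by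
    unfold Pool.Agent.V7H82.OD.nb
    rw [← hcard i, Nat.card_eq_fintype_card]
  have hB : T.Big c p q := by
    refine ⟨hQ, hx, fun A hA => hEnd A hA, htr, fun i => ?_, fun i => ?_⟩
    · rw [← hrk i, ← hcard i, Nat.card_eq_fintype_card, Fintype.card_subtype]
    · rcases hpq i with ⟨h1, h2⟩ | h1
      · refine Or.inl ⟨h1, h2, ?_⟩
        intro h3
        have h4 := hrk i
        have h5 := hrk' i
        omega
      · exact Or.inr h1
  have hpar : ∀ i, (Odd (Pool.Agent.V7H82.OD.nb c i) ∧ 5 ≤ Pool.Agent.V7H82.OD.nb c i) ∨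
      (Even (Pool.Agent.V7H82.OD.nb c i) ∧ 8 ≤ Pool.Agent.V7H82.OD.nb c i) := by
    intro i
    rw [hnb i]
    rcases hrk' i with h | h | h
    · rw [h]
      exact Or.inl ⟨by decide, le_refl _⟩
    · rw [h]
      exact Or.inl ⟨by decide, by norm_num⟩
    · rcases Nat.even_or_odd (rk i) with h1 | h1
      · exact Or.inr ⟨h1, h⟩
      · exact Or.inl ⟨h1, by omega⟩
  have hrep : ∀ (ℓ : ℕ) [Fact ℓ.Prime], Pool.Agent.V7H82.OD.RepC s T c S P ℓ (β ℓ) := fun ℓ _ =>
    ⟨(hsys ℓ).2.2.1, (hsys ℓ).2.2.2.1, (hsys ℓ).2.2.2.2.1, fun i v hv hvℓ σ hσ => by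
      rw [Pool.Agent.V7H82.OD.charpoly_blk]
      exact (hsys ℓ).2.2.2.2.2 i v hv hvℓ σ hσ⟩
  have hal : ∀ i, Pool.Agent.R932.PO.Allows (Pool.Agent.V7H82.OD.kd c i)
      (Pool.Agent.V7H82.OD.nb c i) ℓ₀ (Pool.Agent.V7H82.OD.jb ℓ₀ c T i) := by
    intro i
    unfold Pool.Agent.V7H82.OD.kd
    by_cases h : Odd (Pool.Agent.V7H82.OD.nb c i)
    · rw [if_pos h]
      show ¬ ℓ₀ ∣ Pool.Agent.V7H82.OD.nb c i - 1
      rw [hnb i] at h ⊢
      exact hodd i h
    · rw [if_neg h]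
      show ¬ ℓ₀ ∣ (Pool.Agent.V7H82.OD.nb c i - 2) * (Pool.Agent.V7H82.OD.nb c i - 4) ∧
        Even (Padic.valuation (Pool.Agent.V7H82.OD.jb ℓ₀ c T i).det)
      rw [hnb i] at h
      obtain ⟨h1, h2⟩ := heven i (Nat.not_odd_iff_even.1 h)
      refine ⟨by rw [hnb i]; exact h1, ?_⟩
      have h3 : (Pool.Agent.V7H82.OD.jb ℓ₀ c T i).det = (((block c i T.Q).det : ℚ) : ℚ_[ℓ₀]) := by
        have h4 : (block c i T.Q).det = (Pool.Agent.V7H82.OD.blk c i T.Q).det :=
          (Pool.Agent.V7H82.OD.det_blk i T.Q).symm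
        rw [h4, ← eq_ratCast (algebraMap ℚ ℚ_[ℓ₀]), RingHom.map_det]
        rfl
      rw [h3, Padic.valuation_ratCast]
      exact h2
  obtain ⟨h1, h2⟩ := Pool.Agent.V7H82.OD.one_of_full hB hpar hs hS α β
    (fun ℓ _ => ⟨(hsys ℓ).1, (hsys ℓ).2.1⟩) hrep ℓ₀ hal (by
      rcases hone with hone | hone
      · exact Pool.Agent.V7H82.OD.full_of_mtc hB hpar hs (hrep ℓ₀) hone
      · refine Pool.Agent.V7H82.OD.joint_explicit hQ hpar hs (hrep ℓ₀) (fun i => ?_) hone.2
        obtain ⟨v, hv, hvℓ, b, Q, hQb, h3⟩ := hone.1 i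
        exact ⟨v, hv, hvℓ, b, Q, isHom hQb.2 hQb.1, h3⟩)
  refine ⟨h1, fun ℓ _ => ?_⟩
  refine (h2 ℓ).trans (forall_congr' fun i => and_congr ?_ ?_)
  · exact Pool.Agent.V7H82.OD.ss_iff _ i
  · exact Pool.Agent.V7H82.OD.sc_iff _ i

end

end Pool.Agent.Results.MP_6369ef_ag.OnePrimeDecidesH82
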